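import Pool.Agent.N662.FP.Stm3

/-! FN/BKF: the van den Berg-Kesten inequality for two sums over disjoint sets (helper555). -/

set_option autoImplicit false
set_option linter.unusedSimpArgs false

open MeasureTheory ProbabilityTheory Filter Set
open scoped ENNReal

namespace Pool.Agent.N555.FN

open Pool.Agent.N662.FP

variable {ι : Type} [DecidableEq ι]

/-- the event with doubled coordinates in `F` -/
def Ev (P1 P2 : Finset (Finset ι)) (a b : ℝ) (F : Finset ι) : Set (ι → ℝ × ℝ) :=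
  {z | ∃ S ∈ P1, ∃ S' ∈ P2, S ∩ S' ⊆ F ∧ ∑ i ∈ S, (if i ∈ F then (z i).2 else (z i).1) ≤ a ∧
    ∑ i ∈ S', (z i).1 ≤ b}

theorem measurableSet_Ev (P1 P2 : Finset (Finset ι)) (a b : ℝ) (F : Finset ι) :
    MeasurableSet (Ev P1 P2 a b F) := by
  have h : Ev P1 P2 a b F = ⋃ S ∈ P1, ⋃ S' ∈ P2, ({z : ι → ℝ × ℝ | S ∩ S' ⊆ F} ∩
      ({z : ι → ℝ × ℝ | ∑ i ∈ S, (if i ∈ F then (z i).2 else (z i).1) ≤ a} ∩
        {z : ι → ℝ × ℝ | ∑ i ∈ S', (z i).1 ≤ b})) := by
    ext z
    simp only [Ev, mem_ofPred_eq, mem_iUnion, exists_prop, mem_inter_iff]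
  rw [h]
  refine Finset.measurableSet_biUnion _ fun S _ => Finset.measurableSet_biUnion _ fun S' _ => ?_
  refine (MeasurableSet.const _).inter ((measurableSet_le ?_ measurable_const).inter
    (measurableSet_le ?_ measurable_const))
  · refine Finset.measurable_sum _ fun i _ => ?_
    split_ifs
    · exact measurable_snd.comp (measurable_pi_apply i)
    · exact measurable_fst.comp (measurable_pi_apply i)
  · exact Finset.measurable_sum _ fun i _ => measurable_fst.comp (measurable_pi_apply i)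

/-- the values of coordinate `e` for the first sum -/
def UU (P1 P2 : Finset (Finset ι)) (a b : ℝ) (F : Finset ι) (e : ι) (z : ι → ℝ × ℝ) : Set ℝ :=
  {s | ∃ S ∈ P1, ∃ S' ∈ P2, S ∩ S' ⊆ F ∧ e ∉ S' ∧
    ∑ i ∈ S, (if i ∈ F then (z i).2 else if i = e then s else (z i).1) ≤ a ∧
    ∑ i ∈ S', (z i).1 ≤ b}

/-- the values of coordinate `e` for the second sum -/
def VV (P1 P2 : Finset (Finset ι)) (a b : ℝ) (F : Finset ι) (e : ι) (z : ι → ℝ × ℝ) : Set ℝ :=
  {s | ∃ S ∈ P1, ∃ S' ∈ P2, S ∩ S' ⊆ F ∧ e ∉ S ∧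
    ∑ i ∈ S, (if i ∈ F then (z i).2 else (z i).1) ≤ a ∧
    ∑ i ∈ S', (if i = e then s else (z i).1) ≤ b}

theorem lower_UU (P1 P2 : Finset (Finset ι)) (a b : ℝ) (F : Finset ι) (e : ι) (z : ι → ℝ × ℝ) :
    IsLowerSet (UU P1 P2 a b F e z) := by
  rintro s s' hss ⟨S, hS, S', hS', h1, h2, h3, h4⟩
  refine ⟨S, hS, S', hS', h1, h2, le_trans (Finset.sum_le_sum fun i _ => ?_) h3, h4⟩
  split_ifs <;> first | exact le_rfl | exact hss

theorem lower_VV (P1 P2 : Finset (Finset ι)) (a b : ℝ) (F : Finset ι) (e : ι) (z : ι → ℝ × ℝ) :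
    IsLowerSet (VV P1 P2 a b F e z) := by
  rintro s s' hss ⟨S, hS, S', hS', h1, h2, h3, h4⟩
  refine ⟨S, hS, S', hS', h1, h2, h3, le_trans (Finset.sum_le_sum fun i _ => ?_) h4⟩
  split_ifs <;> first | exact le_rfl | exact hss

theorem before {P1 P2 : Finset (Finset ι)} {a b : ℝ} {F : Finset ι} {e : ι} (he : e ∉ F)
    {z : ι → ℝ × ℝ} {u : ℝ × ℝ} (h : Function.update z e u ∈ Ev P1 P2 a b F) :
    u.1 ∈ UU P1 P2 a b F e z ∪ VV P1 P2 a b F e z := by
  obtain ⟨S, hS, S', hS', h1, h2, h3⟩ := h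
  by_cases heS : e ∈ S
  · have heS' : e ∉ S' := fun h => he (h1 (Finset.mem_inter.2 ⟨heS, h⟩))
    left
    refine ⟨S, hS, S', hS', h1, heS', le_trans (le_of_eq ?_) h2, le_trans (le_of_eq ?_) h3⟩
    · refine Finset.sum_congr rfl fun i _ => ?_
      by_cases hi : i = e
      · subst hi
        simp [he]
      · simp [Function.update_of_ne hi, hi]
    · refine Finset.sum_congr rfl fun i hi => ?_
      have hie : i ≠ e := fun h => heS' (h ▸ hi)
      rw [Function.update_of_ne hie]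
  · right
    refine ⟨S, hS, S', hS', h1, heS, le_trans (le_of_eq ?_) h2, le_trans (le_of_eq ?_) h3⟩
    · refine Finset.sum_congr rfl fun i hi => ?_
      have hie : i ≠ e := fun h => heS (h ▸ hi)
      rw [Function.update_of_ne hie]
    · refine Finset.sum_congr rfl fun i _ => ?_
      by_cases hi : i = e
      · subst hi
        simp
      · simp [Function.update_of_ne hi, hi]

theorem after_U {P1 P2 : Finset (Finset ι)} {a b : ℝ} {F : Finset ι} {e : ι} (he : e ∉ F)
    {z : ι → ℝ × ℝ} {u : ℝ × ℝ} (h : u.2 ∈ UU P1 P2 a b F e z) :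
    Function.update z e u ∈ Ev P1 P2 a b (insert e F) := by
  obtain ⟨S, hS, S', hS', h1, heS', h2, h3⟩ := h
  refine ⟨S, hS, S', hS', h1.trans (Finset.subset_insert _ _), le_trans (le_of_eq ?_) h2,
    le_trans (le_of_eq ?_) h3⟩
  · refine Finset.sum_congr rfl fun i _ => ?_
    by_cases hi : i = e
    · subst hi
      simp [he]
    · simp [Function.update_of_ne hi, hi]
  · refine Finset.sum_congr rfl fun i hi => ?_
    have hie : i ≠ e := fun h => heS' (h ▸ hi)
    rw [Function.update_of_ne hie]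

theorem after_V {P1 P2 : Finset (Finset ι)} {a b : ℝ} {F : Finset ι} {e : ι} (_he : e ∉ F)
    {z : ι → ℝ × ℝ} {u : ℝ × ℝ} (h : u.1 ∈ VV P1 P2 a b F e z) :
    Function.update z e u ∈ Ev P1 P2 a b (insert e F) := by
  obtain ⟨S, hS, S', hS', h1, heS, h2, h3⟩ := h
  refine ⟨S, hS, S', hS', h1.trans (Finset.subset_insert _ _), le_trans (le_of_eq ?_) h2,
    le_trans (le_of_eq ?_) h3⟩
  · refine Finset.sum_congr rfl fun i hi => ?_
    have hie : i ≠ e := fun h => heS (h ▸ hi)
    simp [Function.update_of_ne hie, hie]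
  · refine Finset.sum_congr rfl fun i _ => ?_
    by_cases hi : i = e
    · subst hi
      simp
    · simp [Function.update_of_ne hi, hi]

theorem one_coord {P1 P2 : Finset (Finset ι)} {a b : ℝ} {F : Finset ι} {e : ι} (he : e ∉ F)
    (ν : Measure ℝ) [IsProbabilityMeasure ν] (z : ι → ℝ × ℝ) :
    ∫⁻ u, (Ev P1 P2 a b F).indicator (fun _ => (1 : ℝ≥0∞)) (Function.update z e u) ∂(ν.prod ν) ≤
      ∫⁻ u, (Ev P1 P2 a b (insert e F)).indicator (fun _ => (1 : ℝ≥0∞)) (Function.update z e u)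
        ∂(ν.prod ν) := by
  set U := UU P1 P2 a b F e z with hU
  set V := VV P1 P2 a b F e z with hV
  have hUl : IsLowerSet U := lower_UU _ _ _ _ _ _ _
  have hVl : IsLowerSet V := lower_VV _ _ _ _ _ _ _
  have hUm : MeasurableSet U := hUl.ordConnected.measurableSet
  have hVm : MeasurableSet V := hVl.ordConnected.measurableSet
  have h1 : ∫⁻ u, (Ev P1 P2 a b F).indicator (fun _ => (1 : ℝ≥0∞)) (Function.update z e u)
      ∂(ν.prod ν) ≤ ν (U ∪ V) := by
    have hpre := (measurePreserving_fst (μ := ν) (ν := ν)).measure_preimage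
      (hUm.union hVm).nullMeasurableSet
    rw [← hpre, ← lintegral_indicator_one (measurable_fst (hUm.union hVm))]
    refine lintegral_mono fun u => ?_
    by_cases hu : Function.update z e u ∈ Ev P1 P2 a b F
    · have h2 : u ∈ Prod.fst ⁻¹' (U ∪ V) := before he hu
      rw [indicator_of_mem hu, indicator_of_mem h2]
      rfl
    · rw [indicator_of_notMem hu]
      exact bot_le
  refine h1.trans ?_
  rcases hUl.total hVl with h | h
  · rw [union_eq_right.2 h]
    have hpre := (measurePreserving_fst (μ := ν) (ν := ν)).measure_preimage hVm.nullMeasurableSet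
    rw [← hpre, ← lintegral_indicator_one (measurable_fst hVm)]
    refine lintegral_mono fun u => ?_
    by_cases hu : u.1 ∈ V
    · rw [indicator_of_mem (after_V he hu), indicator_of_mem (show u ∈ Prod.fst ⁻¹' V from hu)]
      exact le_rfl
    · rw [indicator_of_notMem (show u ∉ Prod.fst ⁻¹' V from hu)]
      exact bot_le
  · rw [union_eq_left.2 h]
    have hpre := (measurePreserving_snd (μ := ν) (ν := ν)).measure_preimage hUm.nullMeasurableSet
    rw [← hpre, ← lintegral_indicator_one (measurable_snd hUm)]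
    refine lintegral_mono fun u => ?_
    by_cases hu : u.2 ∈ U
    · rw [indicator_of_mem (after_U he hu), indicator_of_mem (show u ∈ Prod.snd ⁻¹' U from hu)]
      exact le_rfl
    · rw [indicator_of_notMem (show u ∉ Prod.snd ⁻¹' U from hu)]
      exact bot_le

theorem step [Fintype ι] {P1 P2 : Finset (Finset ι)} {a b : ℝ} {F : Finset ι} {e : ι} (he : e ∉ F)
    (ν : Measure ℝ) [IsProbabilityMeasure ν] :
    (Measure.pi fun _ : ι => ν.prod ν) (Ev P1 P2 a b F) ≤
      (Measure.pi fun _ : ι => ν.prod ν) (Ev P1 P2 a b (insert e F)) := by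
  have hm : ∀ F : Finset ι, Measurable ((Ev P1 P2 a b F).indicator (fun _ => (1 : ℝ≥0∞))) :=
    fun F => measurable_const.indicator (measurableSet_Ev _ _ _ _ _)
  have key : ∀ F : Finset ι, (Measure.pi fun _ : ι => ν.prod ν) (Ev P1 P2 a b F) =
      (∫⋯∫⁻_(Finset.univ.erase e), (fun x => ∫⁻ u,
        (Ev P1 P2 a b F).indicator (fun _ => (1 : ℝ≥0∞)) (Function.update x e u) ∂(ν.prod ν))
        ∂fun _ => ν.prod ν) (fun _ => (0, 0)) := by
    intro F
    rw [← lmarginal_erase' (μ := fun _ : ι => ν.prod ν) _ (hm F) (Finset.mem_univ e),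
      ← lintegral_eq_lmarginal_univ]
    exact (lintegral_indicator_one (measurableSet_Ev P1 P2 a b F)).symm
  rw [key F, key (insert e F)]
  exact lmarginal_mono (fun x => one_coord he ν x) _

theorem t_BKF : S_BKF := by
  intro ι _ _ ν _ P1 P2 a b
  have hmono : ∀ F : Finset ι, (Measure.pi fun _ : ι => ν.prod ν) (Ev P1 P2 a b ∅) ≤
      (Measure.pi fun _ : ι => ν.prod ν) (Ev P1 P2 a b F) := by
    intro F
    induction F using Finset.induction_on with
    | empty => exact le_rfl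
    | insert e F he ih => exact ih.trans (step he ν)
  have hmA : ∀ (P : Finset (Finset ι)) (c : ℝ),
      MeasurableSet {x : ι → ℝ | ∃ S ∈ P, ∑ i ∈ S, x i ≤ c} := by
    intro P c
    have h : {x : ι → ℝ | ∃ S ∈ P, ∑ i ∈ S, x i ≤ c} = ⋃ S ∈ P, {x : ι → ℝ | ∑ i ∈ S, x i ≤ c} := by
      ext x
      simp only [mem_ofPred_eq, mem_iUnion, exists_prop]
    rw [h]
    exact Finset.measurableSet_biUnion _ fun S _ => measurableSet_le
      (Finset.measurable_sum _ fun i _ => measurable_pi_apply i) measurable_const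
  have hmD : MeasurableSet {x : ι → ℝ | ∃ S ∈ P1, ∃ S' ∈ P2, Disjoint S S' ∧ ∑ i ∈ S, x i ≤ a ∧
      ∑ i ∈ S', x i ≤ b} := by
    have h : {x : ι → ℝ | ∃ S ∈ P1, ∃ S' ∈ P2, Disjoint S S' ∧ ∑ i ∈ S, x i ≤ a ∧
        ∑ i ∈ S', x i ≤ b} = ⋃ S ∈ P1, ⋃ S' ∈ P2, ({x : ι → ℝ | Disjoint S S'} ∩
          ({x : ι → ℝ | ∑ i ∈ S, x i ≤ a} ∩ {x : ι → ℝ | ∑ i ∈ S', x i ≤ b})) := by
      ext x
      simp only [mem_ofPred_eq, mem_iUnion, exists_prop, mem_inter_iff]
    rw [h]
    exact Finset.measurableSet_biUnion _ fun S _ => Finset.measurableSet_biUnion _ fun S' _ =>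
      (MeasurableSet.const _).inter ((measurableSet_le
        (Finset.measurable_sum _ fun i _ => measurable_pi_apply i) measurable_const).inter
        (measurableSet_le (Finset.measurable_sum _ fun i _ => measurable_pi_apply i)
          measurable_const))
  -- the left side
  have hfst : MeasurePreserving (fun (z : ι → ℝ × ℝ) i => (z i).1)
      (Measure.pi fun _ : ι => ν.prod ν) (Measure.pi fun _ : ι => ν) :=
    measurePreserving_pi _ _ fun _ => measurePreserving_fst
  have h1 : (Measure.pi fun _ : ι => ν) {x | ∃ S ∈ P1, ∃ S' ∈ P2, Disjoint S S' ∧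
      ∑ i ∈ S, x i ≤ a ∧ ∑ i ∈ S', x i ≤ b} =
      (Measure.pi fun _ : ι => ν.prod ν) (Ev P1 P2 a b ∅) := by
    rw [← hfst.measure_preimage hmD.nullMeasurableSet]
    congr 1
    ext z
    simp [Ev, Finset.disjoint_iff_inter_eq_empty]
  -- the right side
  have hE := measurePreserving_arrowProdEquivProdArrow ℝ ℝ ι (fun _ => ν) (fun _ => ν)
  have h2 : (Measure.pi fun _ : ι => ν.prod ν) (Ev P1 P2 a b Finset.univ) =
      (Measure.pi fun _ : ι => ν) {x | ∃ S ∈ P1, ∑ i ∈ S, x i ≤ a} *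
      (Measure.pi fun _ : ι => ν) {x | ∃ S ∈ P2, ∑ i ∈ S, x i ≤ b} := by
    rw [mul_comm, ← Measure.prod_prod, ← hE.measure_preimage
      ((hmA P2 b).prod (hmA P1 a)).nullMeasurableSet]
    congr 1
    ext z
    simp only [Ev, Finset.subset_univ, Finset.mem_univ, if_true, true_and, mem_ofPred_eq,
      mem_preimage, mem_prod]
    constructor
    · rintro ⟨S, hS, S', hS', h1, h2⟩
      exact ⟨⟨S', hS', h2⟩, ⟨S, hS, h1⟩⟩
    · rintro ⟨⟨S', hS', h2⟩, ⟨S, hS, h1⟩⟩
      exact ⟨S, hS, S', hS', h1, h2⟩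
  rw [h1, ← h2]
  exact hmono _

end Pool.Agent.N555.FN
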